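import Pool.Agent.H54.WB.TargetsA
import Pool.Agent.H8.JS.All

/-! Row NEC: a spectrum which is complete for the question. -/

set_option autoImplicit false

namespace Pool.Agent.H84.WB

open Pool.Agent.H54.WB
open Pool.Agent.H69.Sp Pool.Agent.H8.MC Pool.Agent.H8.JS

theorem pf_NEC : T_NEC := by
  obtain ⟨φ, _, _, h⟩ := Pool.Agent.H51.UN.complete_specS
  exact ⟨_, h.1, h.2.2.trans Pool.Agent.H8.JS.j_jq.symm⟩

end Pool.Agent.H84.WB
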